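import Mathlib
import Pool.Agent.V11234.MonoLogic

/-!
# MP_55f31a_lc, Q1: Lyndon interpolation implies Lyndon positivity in monotone modal logics
-/

set_option autoImplicit false

namespace Pool.Agent.Results.MP_55f31a_lc.LyndonPositivity

open Pool.Agent.V11234.MonoLogic

/-- A monotone modal logic is normal if it also contains `□ ⊤` and `□ p ∧ □ q → □ (p ∧ q)`. -/
def Normal (Λ : Set Fml) : Prop :=
  Fml.box .top ∈ Λ ∧
    Fml.imp (.and (.box (.pos 0)) (.box (.pos 1))) (.box (.and (.pos 0) (.pos 1))) ∈ Λ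

/-- Every monotone modal logic with the Lyndon interpolation property has the Lyndon positivity
property; in particular this holds for every non-normal one. -/
theorem result :
    (∀ Λ : Set Fml, IsMonotoneLogic Λ → ¬ Normal Λ → LIP Λ → LPP Λ) ∧
    (∀ Λ : Set Fml, IsMonotoneLogic Λ → LIP Λ → LPP Λ) :=
  ⟨fun _ hΛ _ h => lpp_of_lip hΛ h, fun _ hΛ h => lpp_of_lip hΛ h⟩

end Pool.Agent.Results.MP_55f31a_lc.LyndonPositivity
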